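import Mathlib

set_option autoImplicit false

namespace Pool.Agent.MP_be9872_an

/-- weight `e^{-|x|}` -/
noncomputable def w (x : ℝ) : ℝ := Real.exp (-|x|)

/-- weight `min(1, e^x)` -/
noncomputable def om (x : ℝ) : ℝ := Real.exp (min x 0)

/-- horizontal strip -/
def St (ρ : ℝ) : Set ℂ := {τ | |τ.im| < ρ}

/-- slightly widened strip -/
def Dom (ρ c : ℝ) : Set ℂ := {τ | |τ.im| < ρ + c * om τ.re}

/-- real on the real axis -/
def IsRe (f : ℂ → ℂ) : Prop := ∀ x : ℝ, (f x).im = 0

/-- separatrix profile, from `0` to `π/3` -/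
noncomputable def Th (τ : ℂ) : ℂ := 2 / 3 * Complex.arctan (Complex.exp τ)

/-- derivative of `Th` -/
noncomputable def Thp (τ : ℂ) : ℂ := 1 / (3 * Complex.cosh τ)

/-- real version of `Th` -/
noncomputable def thR (x : ℝ) : ℝ := 2 / 3 * Real.arctan (Real.exp x)

/-- the inverse of `c = -tanh τ` -/
noncomputable def tauC (c : ℝ) : ℝ := 1 / 2 * Real.log ((1 - c) / (1 + c))

/-- a function on the strip read as a function of `c = -tanh τ`, extended by zero -/
noncomputable def flatExt (F : ℂ → ℂ) (c : ℝ) : ℝ :=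
  if |c| < 1 then (F (tauC c : ℝ)).re else 0

/-- amplitude of the perturbation of the circle as a function of the step -/
noncomputable def mu (s : ℂ) : ℂ := (Complex.cosh s - 1) / (37 + 35 * Complex.cosh s)

/-- `sin (π/3)` -/
noncomputable def s0 : ℝ := Real.sqrt 3 / 2

/-- first partial derivative of the unperturbed generating function -/
noncomputable def g0 (η μ θ a : ℂ) : ℂ :=
  -6 * μ * Complex.sin (6 * (θ + a / 2)) * Complex.sin (Real.pi / 3 + η * a / 2)
    - η * (1 + μ * Complex.cos (6 * (θ + a / 2))) * Complex.cos (Real.pi / 3 + η * a / 2)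

noncomputable def I0 (η μ x y : ℂ) : ℂ := -Thp x * g0 η μ (Th x) (Th y - Th x)

noncomputable def J0 (η μ x y : ℂ) : ℂ := Thp y * g0 (-η) μ (Th y) (Th x - Th y)

/-- residual of the unperturbed Euler-Lagrange equation on the profile with step `s` -/
noncomputable def E0 (η s x : ℂ) : ℂ := J0 η (mu s) (x - s) x - I0 η (mu s) x (x + s)

/-- its leading part, summed -/
noncomputable def F0 (η s x : ℂ) : ℂ := η * s ^ 2 * Thp x ^ 3 / 24

/-- the inverse of `Th` -/
noncomputable def Lam (x : ℂ) : ℂ := Complex.log (Complex.tan (3 * x / 2))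

/-- the midpoint in the coordinate `τ` -/
noncomputable def mid (x y : ℂ) : ℂ := Lam ((Th x + Th y) / 2)

/-- the limit of `mid x (x + l) - x` at the left end -/
noncomputable def cst (l : ℝ) : ℝ := Real.log ((1 + Real.exp l) / 2)

end Pool.Agent.MP_be9872_an
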