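import Pool.Agent.MP_be9872_an.Defs

set_option autoImplicit false

namespace Pool.Agent.MP_be9872_an

/-- data on one branch: a time change `T` and a remainder `r` of size `κ w^2` -/
structure Branch (ρ κ : ℝ) (T r : ℂ → ℂ) : Prop where
  dT : DifferentiableOn ℂ T (St ρ)
  reT : IsRe T
  dT1 : ∀ τ ∈ St ρ, ‖deriv T τ - 1‖ ≤ 1 / 2
  bT : ∀ τ ∈ St ρ, ‖T τ - τ‖ ≤ 1 / 10
  dr : DifferentiableOn ℂ r (St ρ)
  rer : IsRe r
  br : ∀ τ ∈ St ρ, ‖r τ‖ ≤ κ * w τ.re ^ 2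

lemma ext_w_pos (x : ℝ) : 0 < w x := Real.exp_pos _

lemma ext_w_le_one (x : ℝ) : w x ≤ 1 := by
  unfold w
  rw [Real.exp_le_one_iff]
  have := abs_nonneg x
  linarith

lemma ext_w_near {x y : ℝ} (h : |x - y| ≤ 1 / 2) : w x ≤ 2 * w y := by
  unfold w
  have h1 : -|x| ≤ 1 / 2 + -|y| := by
    have := abs_sub_abs_le_abs_sub y x
    rw [abs_sub_comm] at this
    linarith
  have h2 : Real.exp (1 / 2) ≤ 2 := by
    have h3 : Real.exp (1 / 2) * Real.exp (1 / 2) = Real.exp 1 := by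
      rw [← Real.exp_add]; norm_num
    have h4 := Real.exp_one_lt_d9
    have h5 := Real.exp_pos (1 / 2)
    nlinarith
  calc Real.exp (-|x|) ≤ Real.exp (1 / 2 + -|y|) := Real.exp_le_exp.2 h1
    _ = Real.exp (1 / 2) * Real.exp (-|y|) := Real.exp_add _ _
    _ ≤ 2 * Real.exp (-|y|) := by gcongr

lemma ext_w_sq_near {x y : ℝ} (h : |x - y| ≤ 1 / 2) : w x ^ 2 ≤ 4 * w y ^ 2 := by
  have h1 := ext_w_near h
  have h2 := ext_w_pos x
  nlinarith

lemma ext_w_neg (x : ℝ) : w (-x) = w x := by simp [w]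

lemma ext_w_cosh (x : ℝ) : w x * Real.cosh x ≤ 1 := by
  have h1 : Real.cosh x ≤ Real.exp |x| := by
    rw [Real.cosh_eq]
    have a1 : Real.exp x ≤ Real.exp |x| := Real.exp_le_exp.2 (le_abs_self x)
    have a2 : Real.exp (-x) ≤ Real.exp |x| := Real.exp_le_exp.2 (neg_le_abs x)
    linarith
  calc w x * Real.cosh x ≤ w x * Real.exp |x| := by
        have := ext_w_pos x
        gcongr
    _ = 1 := by unfold w; rw [← Real.exp_add]; simp

lemma ext_abs_sinh (x : ℝ) : |Real.sinh x| ≤ Real.cosh x := by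
  rw [abs_le]
  have h1 := Real.sinh_lt_cosh x
  have h2 := Real.sinh_lt_cosh (-x)
  rw [Real.sinh_neg, Real.cosh_neg] at h2
  constructor <;> linarith

lemma ext_open (ρ : ℝ) : IsOpen (St ρ) := by
  unfold St
  exact isOpen_lt (by fun_prop) continuous_const

lemma ext_real_mem {ρ : ℝ} (hρ : 0 < ρ) (x : ℝ) : (x : ℂ) ∈ St ρ := by
  simp [St, hρ]

lemma ext_St_mono {ρ ρ' : ℝ} (h : ρ ≤ ρ') : St ρ ⊆ St ρ' := fun _ hz => lt_of_lt_of_le hz h

lemma ext_ball {ρ : ℝ} (hρ : 0 < ρ) {τ : ℂ} (hτ : τ ∈ St (ρ / 2)) :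
    Metric.closedBall τ (ρ / 4) ⊆ St ρ := by
  intro z hz
  rw [Metric.mem_closedBall, dist_eq_norm] at hz
  have h1 := Complex.abs_im_le_norm (z - τ)
  rw [Complex.sub_im] at h1
  have h2 : |τ.im| < ρ / 2 := hτ
  have h3 := abs_sub_abs_le_abs_sub z.im τ.im
  show |z.im| < ρ
  linarith

lemma ext_cauchy {ρ : ℝ} (hρ : 0 < ρ) {f : ℂ → ℂ} (hf : DifferentiableOn ℂ f (St ρ)) {τ : ℂ}
    (hτ : τ ∈ St (ρ / 2)) {M : ℝ} (hM : ∀ z ∈ Metric.closedBall τ (ρ / 4), ‖f z‖ ≤ M) :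
    ‖deriv f τ‖ ≤ M / (ρ / 4) := by
  refine Complex.norm_deriv_le_of_forall_mem_sphere_norm_le (by positivity) ?_
    (fun z hz => hM z (Metric.sphere_subset_closedBall hz))
  refine DifferentiableOn.diffContOnCl (hf.mono ?_)
  rw [closure_ball _ (by positivity)]
  exact ext_ball hρ hτ

lemma ext_cauchy_w {ρ c : ℝ} (hρ : 0 < ρ) (hρ1 : ρ ≤ 1) (hc : 0 ≤ c) {f : ℂ → ℂ}
    (hf : DifferentiableOn ℂ f (St ρ)) (hb : ∀ τ ∈ St ρ, ‖f τ‖ ≤ c * w τ.re ^ 2) :
    ∀ τ ∈ St (ρ / 2), ‖deriv f τ‖ ≤ (16 / ρ * c) * w τ.re ^ 2 := by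
  intro τ hτ
  have := ext_cauchy hρ hf hτ (M := c * (4 * w τ.re ^ 2)) (fun z hz => by
    refine (hb z (ext_ball hρ hτ hz)).trans ?_
    rw [Metric.mem_closedBall, dist_eq_norm] at hz
    have h1 := Complex.abs_re_le_norm (z - τ)
    rw [Complex.sub_re] at h1
    have := ext_w_sq_near (x := z.re) (y := τ.re) (by linarith)
    gcongr)
  refine this.trans (le_of_eq ?_)
  field_simp
  ring

lemma ext_arctan {s : ℝ} (h0 : 0 ≤ s) (h1 : s ≤ 1) : s / 2 ≤ Real.arctan s := by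
  have hpi := Real.pi_gt_three
  have hc : 1 / 2 ≤ Real.cos (s / 2) := by
    have := Real.one_sub_sq_div_two_le_cos (x := s / 2)
    nlinarith
  have hs : Real.sin (s / 2) ≤ s / 2 := Real.sin_le (by linarith)
  have ht : Real.tan (s / 2) ≤ s := by
    rw [Real.tan_eq_sin_div_cos, div_le_iff₀ (by linarith)]
    nlinarith
  calc s / 2 = Real.arctan (Real.tan (s / 2)) :=
        (Real.arctan_tan (by linarith) (by linarith)).symm
    _ ≤ Real.arctan s := Real.arctan_strictMono.monotone ht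

lemma ext_w_le_thR (y : ℝ) : w y ≤ 3 * thR y := by
  have h1 := ext_arctan (ext_w_pos y).le (ext_w_le_one y)
  have h2 : Real.arctan (w y) ≤ Real.arctan (Real.exp y) :=
    Real.arctan_strictMono.monotone (Real.exp_le_exp.2 (neg_abs_le y))
  unfold thR
  linarith

lemma ext_thR_neg (y : ℝ) : thR (-y) = Real.pi / 3 - thR y := by
  unfold thR
  rw [Real.exp_neg, Real.arctan_inv_of_pos (Real.exp_pos y)]
  ring

lemma ext_w_le_thR' (y : ℝ) : w y ≤ 3 * (Real.pi / 3 - thR y) := by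
  rw [← ext_thR_neg, ← ext_w_neg]
  exact ext_w_le_thR _

lemma ext_thR_mem (y : ℝ) : thR y ∈ Set.Ioo 0 (Real.pi / 3) := by
  have h1 := ext_w_le_thR y
  have h2 := ext_w_le_thR' y
  have h3 := ext_w_pos y
  constructor <;> linarith

/-- real inverse of `thR` -/
noncomputable def ext_lam (θ : ℝ) : ℝ := Real.log (Real.tan (3 * θ / 2))

lemma ext_lam_thR (y : ℝ) : ext_lam (thR y) = y := by
  unfold ext_lam thR
  rw [show 3 * (2 / 3 * Real.arctan (Real.exp y)) / 2 = Real.arctan (Real.exp y) by ring,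
    Real.tan_arctan, Real.log_exp]

lemma ext_tan_pos {θ : ℝ} (h : θ ∈ Set.Ioo 0 (Real.pi / 3)) : 0 < Real.tan (3 * θ / 2) :=
  Real.tan_pos_of_pos_of_lt_pi_div_two (by linarith [h.1]) (by linarith [h.2])

lemma ext_thR_lam {θ : ℝ} (h : θ ∈ Set.Ioo 0 (Real.pi / 3)) : thR (ext_lam θ) = θ := by
  have hpi := Real.pi_pos
  unfold ext_lam thR
  rw [Real.exp_log (ext_tan_pos h), Real.arctan_tan (by linarith [h.1]) (by linarith [h.2])]
  ring

lemma ext_lam_deriv {θ : ℝ} (h : θ ∈ Set.Ioo 0 (Real.pi / 3)) :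
    HasDerivAt ext_lam (3 * Real.cosh (ext_lam θ)) θ := by
  have hpi := Real.pi_pos
  have hc : 0 < Real.cos (3 * θ / 2) :=
    Real.cos_pos_of_mem_Ioo ⟨by linarith [h.1], by linarith [h.2]⟩
  have ht := ext_tan_pos h
  have h1 : HasDerivAt (fun θ : ℝ => 3 * θ / 2) (3 / 2) θ := by
    simpa using ((hasDerivAt_id θ).const_mul 3).div_const 2
  have h2' : HasDerivAt (fun θ : ℝ => Real.tan (3 * θ / 2))
      (1 / Real.cos (3 * θ / 2) ^ 2 * (3 / 2)) θ :=
    HasDerivAt.comp (h₂ := Real.tan) θ (Real.hasDerivAt_tan hc.ne') h1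
  have h2 := h2'.log ht.ne'
  have h3 : 3 * Real.cosh (ext_lam θ) =
      1 / Real.cos (3 * θ / 2) ^ 2 * (3 / 2) / Real.tan (3 * θ / 2) := by
    unfold ext_lam
    rw [Real.cosh_log ht]
    have h4 : 1 / Real.cos (3 * θ / 2) ^ 2 = 1 + Real.tan (3 * θ / 2) ^ 2 := by
      rw [Real.tan_eq_sin_div_cos]
      have := Real.sin_sq_add_cos_sq (3 * θ / 2)
      field_simp
      linarith
    rw [h4]
    field_simp
    ring
  rw [h3]
  exact h2

lemma ext_dist {θ φ : ℝ} (h : θ ∈ Set.Ioo 0 (Real.pi / 3)) (h' : φ ∉ Set.Ioo 0 (Real.pi / 3)) :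
    w (ext_lam θ) ≤ 3 * |θ - φ| := by
  have h1 := ext_w_le_thR (ext_lam θ)
  have h2 := ext_w_le_thR' (ext_lam θ)
  rw [ext_thR_lam h] at h1 h2
  rw [Set.mem_Ioo, not_and_or, not_lt, not_lt] at h'
  have h3 := le_abs_self (θ - φ)
  have h4 := neg_le_abs (θ - φ)
  rcases h' with h' | h' <;> linarith

lemma ext_flat {a : ℝ → ℝ} {c φ : ℝ} (h : ∀ θ, |a θ| ≤ c * (θ - φ) ^ 2) : HasDerivAt a 0 φ := by
  have h0 : a φ = 0 := by simpa using h φ
  rw [hasDerivAt_iff_isLittleO]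
  simp only [h0, smul_zero, sub_zero]
  refine Asymptotics.IsBigO.trans_isLittleO (g := fun θ => ‖θ - φ‖ ^ 2) ?_
    (Asymptotics.isLittleO_pow_sub_sub φ (by norm_num))
  refine Asymptotics.IsBigO.of_bound c (Filter.Eventually.of_forall fun θ => ?_)
  simpa [sq_abs] using h θ

/-- the data produced by one branch -/
structure ext_Bump (L : ℝ) (a b : ℝ → ℝ) : Prop where
  der : ∀ θ, HasDerivAt a (b θ) θ
  za : ∀ θ, θ ∉ Set.Ioo 0 (Real.pi / 3) → a θ = 0
  zb : ∀ θ, θ ∉ Set.Ioo 0 (Real.pi / 3) → b θ = 0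
  ba : ∀ θ, |a θ| ≤ L
  bb : ∀ θ, |b θ| ≤ L
  lip : ∀ θ φ, |b θ - b φ| ≤ L * |θ - φ|

lemma ext_step2 {K : ℝ} (hK : 0 ≤ K) {F F1 F2 : ℝ → ℝ} (d1 : ∀ y, HasDerivAt F (F1 y) y)
    (d2 : ∀ y, HasDerivAt F1 (F2 y) y) (b0 : ∀ y, |F y| ≤ K * w y ^ 2)
    (b1 : ∀ y, |F1 y| ≤ K * w y ^ 2) (b2 : ∀ y, |F2 y| ≤ K * w y ^ 2) :
    ∃ a b : ℝ → ℝ, ext_Bump (18 * K) a b ∧ ∀ y, a (thR y) = F y := by
  classical
  let a : ℝ → ℝ := fun θ => if θ ∈ Set.Ioo 0 (Real.pi / 3) then F (ext_lam θ) else 0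
  let b : ℝ → ℝ := fun θ =>
    if θ ∈ Set.Ioo 0 (Real.pi / 3) then F1 (ext_lam θ) * (3 * Real.cosh (ext_lam θ)) else 0
  have hb : ∀ y, |F1 y * (3 * Real.cosh y)| ≤ 3 * K * w y := by
    intro y
    have h1 := Real.cosh_pos y
    have h2 := ext_w_cosh y
    have h3 := ext_w_pos y
    rw [abs_mul, abs_of_pos (by positivity : 0 < 3 * Real.cosh y)]
    calc |F1 y| * (3 * Real.cosh y) ≤ K * w y ^ 2 * (3 * Real.cosh y) := by
          have := b1 y
          gcongr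
      _ = 3 * K * w y * (w y * Real.cosh y) := by ring
      _ ≤ 3 * K * w y * 1 := by gcongr
      _ = _ := mul_one _
  have hin : ∀ θ φ, θ ∈ Set.Ioo 0 (Real.pi / 3) → φ ∉ Set.Ioo 0 (Real.pi / 3) →
      |b θ - b φ| ≤ 18 * K * |θ - φ| := by
    intro θ φ h h'
    simp only [b, if_pos h, if_neg h', sub_zero]
    have h1 := ext_dist h h'
    have h2 := abs_nonneg (θ - φ)
    calc _ ≤ 3 * K * w (ext_lam θ) := hb _
      _ ≤ 3 * K * (3 * |θ - φ|) := by gcongr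
      _ ≤ _ := by nlinarith [mul_nonneg hK h2]
  refine ⟨a, b, ⟨fun θ => ?_, fun θ h => if_neg h, fun θ h => if_neg h, fun θ => ?_, fun θ => ?_,
    fun θ φ => ?_⟩, fun y => ?_⟩
  · by_cases h : θ ∈ Set.Ioo 0 (Real.pi / 3)
    · have h1 := (d1 (ext_lam θ)).comp θ (ext_lam_deriv h)
      simp only [b, if_pos h]
      refine h1.congr_of_eventuallyEq ?_
      filter_upwards [isOpen_Ioo.mem_nhds h] with φ hφ
      simp only [a, if_pos hφ, Function.comp]
    · simp only [b, if_neg h]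
      refine ext_flat (c := 9 * K) fun φ => ?_
      by_cases h' : φ ∈ Set.Ioo 0 (Real.pi / 3)
      · simp only [a, if_pos h']
        have h1 := ext_dist h' h
        have h2 := ext_w_pos (ext_lam φ)
        calc _ ≤ K * w (ext_lam φ) ^ 2 := b0 _
          _ ≤ K * (3 * |φ - θ|) ^ 2 := by gcongr
          _ = _ := by rw [mul_pow, sq_abs]; ring
      · simp only [a, if_neg h', abs_zero]
        positivity
  · by_cases h : θ ∈ Set.Ioo 0 (Real.pi / 3)
    · simp only [a, if_pos h]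
      have h1 := ext_w_le_one (ext_lam θ)
      have h2 := ext_w_pos (ext_lam θ)
      calc _ ≤ K * w (ext_lam θ) ^ 2 := b0 _
        _ ≤ K * 1 ^ 2 := by gcongr
        _ ≤ _ := by linarith
    · simp only [a, if_neg h, abs_zero]
      positivity
  · by_cases h : θ ∈ Set.Ioo 0 (Real.pi / 3)
    · simp only [b, if_pos h]
      have h1 := ext_w_le_one (ext_lam θ)
      calc _ ≤ 3 * K * w (ext_lam θ) := hb _
        _ ≤ 3 * K * 1 := by gcongr
        _ ≤ _ := by linarith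
    · simp only [b, if_neg h, abs_zero]
      positivity
  · by_cases h : θ ∈ Set.Ioo 0 (Real.pi / 3) <;> by_cases h' : φ ∈ Set.Ioo 0 (Real.pi / 3)
    · simp only [b, if_pos h, if_pos h']
      have key := Convex.norm_image_sub_le_of_norm_hasDerivWithin_le
        (f := fun θ => F1 (ext_lam θ) * (3 * Real.cosh (ext_lam θ)))
        (f' := fun θ => (F2 (ext_lam θ) * (3 * Real.cosh (ext_lam θ)) +
          F1 (ext_lam θ) * (3 * Real.sinh (ext_lam θ))) * (3 * Real.cosh (ext_lam θ)))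
        (C := 18 * K) (s := Set.Ioo 0 (Real.pi / 3)) (fun x hx => by
          have h1 := ((d2 (ext_lam x)).mul
            ((Real.hasDerivAt_cosh (ext_lam x)).const_mul 3)).comp x (ext_lam_deriv hx)
          exact h1.hasDerivWithinAt) (fun x _ => by
          set y := ext_lam x
          have h1 := Real.cosh_pos y
          have h2 := ext_w_cosh y
          have h3 := ext_w_pos y
          have h4 := ext_abs_sinh y
          have h5 := b1 y
          have h6 := b2 y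
          rw [Real.norm_eq_abs, abs_mul, abs_of_pos (by positivity : 0 < 3 * Real.cosh y)]
          have h7 : |F2 y * (3 * Real.cosh y) + F1 y * (3 * Real.sinh y)| ≤
              K * w y ^ 2 * (3 * Real.cosh y) + K * w y ^ 2 * (3 * Real.cosh y) := by
            refine (abs_add_le _ _).trans (add_le_add ?_ ?_)
            · rw [abs_mul, abs_of_pos (by positivity : 0 < 3 * Real.cosh y)]
              gcongr
            · rw [abs_mul, abs_mul, abs_of_pos (by norm_num : (0 : ℝ) < 3)]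
              gcongr
          calc _ ≤ (K * w y ^ 2 * (3 * Real.cosh y) + K * w y ^ 2 * (3 * Real.cosh y)) *
                (3 * Real.cosh y) := by gcongr
            _ = 18 * K * (w y * Real.cosh y) ^ 2 := by ring
            _ ≤ 18 * K * 1 ^ 2 := by gcongr
            _ = _ := by ring) (convex_Ioo _ _) h' h
      simpa [Real.norm_eq_abs] using key
    · exact hin θ φ h h'
    · rw [abs_sub_comm (b θ), abs_sub_comm θ]
      exact hin φ θ h' h
    · simp only [b, if_neg h, if_neg h', sub_zero, abs_zero]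
      positivity
  · simp only [a, if_pos (ext_thR_mem y), ext_lam_thR]

lemma ext_step1 {K M : ℝ} (hK : 0 ≤ K) (hM : 0 ≤ M) {f f1 f2 t t1 t2 : ℝ → ℝ}
    (d1 : ∀ y, HasDerivAt f (f1 y) y)
    (d2 : ∀ y, HasDerivAt f1 (f2 y) y) (b0 : ∀ y, |f y| ≤ K * w y ^ 2)
    (b1 : ∀ y, |f1 y| ≤ K * w y ^ 2) (b2 : ∀ y, |f2 y| ≤ K * w y ^ 2)
    (e1 : ∀ y, HasDerivAt t (t1 y) y) (e2 : ∀ y, HasDerivAt t1 (t2 y) y)
    (c0 : ∀ y, |t y - y| ≤ 1 / 10) (c1 : ∀ y, 1 / 2 ≤ t1 y) (c2 : ∀ y, |t2 y| ≤ M) :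
    ∃ a b : ℝ → ℝ, ext_Bump (18 * ((16 + 32 * M) * K)) a b ∧ ∀ x, a (thR (t x)) = f x := by
  have hmono : StrictMono t := strictMono_of_hasDerivAt_pos e1 (fun y => by linarith [c1 y])
  have hcont : Continuous t := continuous_iff_continuousAt.2 fun y => (e1 y).continuousAt
  have hsurj : Function.Surjective t := by
    intro y
    have h1 := (abs_le.1 (c0 (y - 1))).2
    have h2 := (abs_le.1 (c0 (y + 1))).1
    obtain ⟨x, _, hx⟩ := intermediate_value_Icc (a := y - 1) (b := y + 1) (by linarith)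
      hcont.continuousOn (show y ∈ Set.Icc (t (y - 1)) (t (y + 1)) from ⟨by linarith, by linarith⟩)
    exact ⟨x, hx⟩
  let e := hmono.orderIsoOfSurjective t hsurj
  let s : ℝ → ℝ := e.symm
  have hts : ∀ y, t (s y) = y := fun y => e.apply_symm_apply y
  have hst : ∀ x, s (t x) = x := fun x => e.symm_apply_apply x
  have hs : ∀ y, HasDerivAt s (t1 (s y))⁻¹ y := fun y =>
    HasDerivAt.of_local_left_inverse e.symm.continuous.continuousAt (e1 (s y))
      (by linarith [c1 (s y)]) (Filter.Eventually.of_forall hts)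
  have hw : ∀ y, w (s y) ^ 2 ≤ 4 * w y ^ 2 := by
    intro y
    refine ext_w_sq_near ?_
    have := c0 (s y)
    rw [hts, abs_sub_comm] at this
    linarith
  have hinv : ∀ x, 0 < (t1 x)⁻¹ ∧ (t1 x)⁻¹ ≤ 2 := by
    intro x
    have h := c1 x
    refine ⟨by positivity, ?_⟩
    rw [inv_le_comm₀ (by linarith) (by norm_num)]
    linarith
  obtain ⟨a, b, hab, hv⟩ := ext_step2 (K := (16 + 32 * M) * K) (by positivity)
    (F := fun y => f (s y)) (F1 := fun y => f1 (s y) * (t1 (s y))⁻¹)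
    (F2 := fun y => (f2 (s y) * (t1 (s y))⁻¹ +
      f1 (s y) * (-t2 (s y) / t1 (s y) ^ 2)) * (t1 (s y))⁻¹)
    (fun y => (d1 (s y)).comp y (hs y))
    (fun y => ((d2 (s y)).mul ((e2 (s y)).inv (by linarith [c1 (s y)]))).comp y (hs y))
    (fun y => by
      have h1 := hw y
      have h2 : 0 ≤ K * w y ^ 2 := by positivity
      calc _ ≤ K * w (s y) ^ 2 := b0 _
        _ ≤ K * (4 * w y ^ 2) := by gcongr
        _ ≤ _ := by nlinarith [mul_nonneg hM h2])
    (fun y => by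
      have h1 := hw y
      have h2 : 0 ≤ K * w y ^ 2 := by positivity
      obtain ⟨h3, h4⟩ := hinv (s y)
      have h5 := b1 (s y)
      rw [abs_mul, abs_of_pos h3]
      calc _ ≤ K * w (s y) ^ 2 * 2 := by gcongr
        _ ≤ K * (4 * w y ^ 2) * 2 := by gcongr
        _ ≤ _ := by nlinarith [mul_nonneg hM h2])
    (fun y => by
      have h1 := hw y
      have h2 : 0 ≤ K * w y ^ 2 := by positivity
      obtain ⟨h3, h4⟩ := hinv (s y)
      have h5 := b1 (s y)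
      have h6 := b2 (s y)
      have h7 := c2 (s y)
      have h8 : |-t2 (s y) / t1 (s y) ^ 2| ≤ M * 2 ^ 2 := by
        rw [div_eq_mul_inv, ← inv_pow, abs_mul, abs_neg, abs_of_pos (pow_pos h3 2)]
        gcongr
      have h9 : |f2 (s y) * (t1 (s y))⁻¹ + f1 (s y) * (-t2 (s y) / t1 (s y) ^ 2)| ≤
          K * w (s y) ^ 2 * 2 + K * w (s y) ^ 2 * (M * 2 ^ 2) := by
        refine (abs_add_le _ _).trans (add_le_add ?_ ?_)
        · rw [abs_mul, abs_of_pos h3]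
          gcongr
        · rw [abs_mul]
          gcongr
      rw [abs_mul, abs_of_pos h3]
      calc _ ≤ (K * w (s y) ^ 2 * 2 + K * w (s y) ^ 2 * (M * 2 ^ 2)) * 2 := by gcongr
        _ ≤ (K * (4 * w y ^ 2) * 2 + K * (4 * w y ^ 2) * (M * 2 ^ 2)) * 2 := by gcongr
        _ = _ := by ring)
  exact ⟨a, b, hab, fun x => by rw [hv, hst]⟩

lemma ext_branch (ρ : ℝ) (hρ : 0 < ρ) (hρ1 : ρ ≤ 1 / 4) :
    ∃ C : ℝ, 0 < C ∧ ∀ (κ : ℝ) (T r : ℂ → ℂ), Branch ρ κ T r →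
      ∃ a b : ℝ → ℝ, ext_Bump (C * κ) a b ∧ ∀ x : ℝ, a (thR (T x).re) = (r x).re := by
  refine ⟨18 * ((16 + 32 * (2 / ρ)) * (16 / (ρ / 2) * (16 / ρ))), by positivity, ?_⟩
  intro κ T r h
  have hκ : 0 ≤ κ := by
    have h1 := (norm_nonneg _).trans (h.br 0 (by simpa using ext_real_mem hρ 0))
    have h2 := ext_w_pos (0 : ℂ).re
    by_contra hn
    push Not at hn
    nlinarith [mul_pos (neg_pos.2 hn) (pow_pos h2 2)]
  have hρ2 : 0 < ρ / 2 := by positivity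
  have dr1 : DifferentiableOn ℂ (deriv r) (St ρ) := h.dr.deriv (ext_open ρ)
  have dT1 : DifferentiableOn ℂ (deriv T) (St ρ) := h.dT.deriv (ext_open ρ)
  have r1 := ext_cauchy_w hρ (by linarith) hκ h.dr h.br
  have r2 := ext_cauchy_w hρ2 (by linarith) (by positivity)
    (dr1.mono (ext_St_mono (by linarith))) r1
  have der : ∀ {g : ℂ → ℂ}, DifferentiableOn ℂ g (St ρ) → ∀ y : ℝ,
      HasDerivAt (fun x : ℝ => (g x).re) (deriv g y).re y := by
    intro g hg y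
    exact (hg.differentiableAt ((ext_open ρ).mem_nhds (ext_real_mem hρ y))).hasDerivAt.real_of_complex
  have g1 : 1 ≤ 16 / ρ := by rw [le_div_iff₀ hρ]; linarith
  have g2 : 1 ≤ 16 / (ρ / 2) := by rw [le_div_iff₀ hρ2]; linarith
  obtain ⟨a, b, hab, hv⟩ := ext_step1 (K := 16 / (ρ / 2) * (16 / ρ * κ)) (M := 2 / ρ)
    (by positivity) (by positivity) (der h.dr) (der dr1)
    (fun y => by
      have h1 := (Complex.abs_re_le_norm _).trans (h.br y (ext_real_mem hρ y))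
      rw [Complex.ofReal_re] at h1
      refine h1.trans ?_
      have : κ ≤ 16 / (ρ / 2) * (16 / ρ * κ) := by
        calc κ = 1 * (1 * κ) := by ring
          _ ≤ _ := by gcongr
      gcongr)
    (fun y => by
      have h1 := (Complex.abs_re_le_norm _).trans (r1 y (ext_real_mem hρ2 y))
      rw [Complex.ofReal_re] at h1
      refine h1.trans ?_
      have : 16 / ρ * κ ≤ 16 / (ρ / 2) * (16 / ρ * κ) := by
        calc 16 / ρ * κ = 1 * (16 / ρ * κ) := by ring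
          _ ≤ _ := by gcongr
      gcongr)
    (fun y => by
      have h1 := (Complex.abs_re_le_norm _).trans (r2 y (ext_real_mem (by positivity) y))
      rwa [Complex.ofReal_re] at h1)
    (der h.dT) (der dT1)
    (fun y => by
      have h1 := (Complex.abs_re_le_norm _).trans (h.bT y (ext_real_mem hρ y))
      simpa using h1)
    (fun y => by
      have h1 := (Complex.abs_re_le_norm _).trans (h.dT1 y (ext_real_mem hρ y))
      rw [Complex.sub_re, Complex.one_re] at h1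
      linarith [(abs_le.1 h1).1])
    (fun y => by
      have h1 := ext_cauchy hρ (f := fun z => deriv T z - 1) (dT1.sub_const 1)
        (ext_real_mem hρ2 y) (M := 1 / 2)
        (fun z hz => h.dT1 z (ext_ball hρ (ext_real_mem hρ2 y) hz))
      rw [deriv_sub_const] at h1
      refine (Complex.abs_re_le_norm _).trans (h1.trans (le_of_eq ?_))
      field_simp
      norm_num)
  refine ⟨a, b, ?_, hv⟩
  have e : 18 * ((16 + 32 * (2 / ρ)) * (16 / (ρ / 2) * (16 / ρ))) * κ =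
      18 * ((16 + 32 * (2 / ρ)) * (16 / (ρ / 2) * (16 / ρ * κ))) := by ring
  rw [e]
  exact hab

lemma ext_per {L : ℝ} {a b : ℝ → ℝ} (der : ∀ θ, HasDerivAt a (b θ) θ)
    (za : ∀ θ, θ ∉ Set.Ioo (-(Real.pi / 3)) (Real.pi / 3) → a θ = 0)
    (zb : ∀ θ, θ ∉ Set.Ioo (-(Real.pi / 3)) (Real.pi / 3) → b θ = 0)
    (ba : ∀ θ, |a θ| ≤ L) (bb : ∀ θ, |b θ| ≤ L) (lip : ∀ θ φ, |b θ - b φ| ≤ L * |θ - φ|) :
    ∃ R : ℝ → ℝ, Differentiable ℝ R ∧ Function.Periodic R (2 * Real.pi / 3) ∧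
      (∀ θ, |R θ| ≤ L) ∧ (∀ θ, |deriv R θ| ≤ L) ∧
      (∀ θ φ, |deriv R θ - deriv R φ| ≤ L * |θ - φ|) ∧
      (∀ θ ∈ Set.Ioc (-(Real.pi / 3)) (Real.pi / 3), R θ = a θ) ∧ deriv R 0 = b 0 := by
  have hpi := Real.pi_pos
  have hp : 0 < 2 * Real.pi / 3 := by positivity
  have hL : 0 ≤ L := (abs_nonneg _).trans (ba 0)
  let m : ℝ → ℝ := fun θ => toIocMod hp (-(Real.pi / 3)) θ
  have hm : ∀ θ, -(Real.pi / 3) < m θ ∧ m θ ≤ Real.pi / 3 := by
    intro θ
    have := toIocMod_mem_Ioc hp (-(Real.pi / 3)) θ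
    exact ⟨this.1, by linarith [this.2]⟩
  have hk : ∀ θ, ∃ k : ℤ, θ = m θ + k * (2 * Real.pi / 3) := by
    intro θ
    refine ⟨toIocDiv hp (-(Real.pi / 3)) θ, ?_⟩
    have := toIocMod_add_toIocDiv_zsmul hp (-(Real.pi / 3)) θ
    rw [zsmul_eq_mul] at this
    exact this.symm
  have huniq : ∀ (θ : ℝ) (k : ℤ), -(Real.pi / 3) < θ - k * (2 * Real.pi / 3) →
      θ - k * (2 * Real.pi / 3) ≤ Real.pi / 3 → m θ = θ - k * (2 * Real.pi / 3) := by
    intro θ k h1 h2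
    refine (toIocMod_eq_iff hp).2 ⟨⟨h1, by linarith⟩, k, ?_⟩
    rw [zsmul_eq_mul]; ring
  have hder : ∀ θ, HasDerivAt (fun θ => a (m θ)) (b (m θ)) θ := by
    intro θ
    obtain ⟨k, hθ⟩ := hk θ
    obtain ⟨m1, m2⟩ := hm θ
    have h1 : HasDerivAt (fun x => a (x - k * (2 * Real.pi / 3)))
        (b (θ - k * (2 * Real.pi / 3))) θ := (der _).comp_sub_const θ _
    have h2 : HasDerivAt (fun x => a (x - ((k + 1 : ℤ) : ℝ) * (2 * Real.pi / 3)))
        (b (θ - ((k + 1 : ℤ) : ℝ) * (2 * Real.pi / 3))) θ := (der _).comp_sub_const θ _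
    have h3 : b (θ - ((k + 1 : ℤ) : ℝ) * (2 * Real.pi / 3)) = 0 := by
      refine zb _ fun h => ?_
      have := h.1
      push_cast at this
      linarith
    have h4 : θ - k * (2 * Real.pi / 3) = m θ := by linarith
    have h5 := h1.add h2
    rw [h3, h4, add_zero] at h5
    refine h5.congr_of_eventuallyEq ?_
    have hmem : θ ∈ Set.Ioo (-(Real.pi / 3) + k * (2 * Real.pi / 3))
        (Real.pi + k * (2 * Real.pi / 3)) := ⟨by linarith, by linarith⟩
    filter_upwards [isOpen_Ioo.mem_nhds hmem] with x hx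
    obtain ⟨x1, x2⟩ := hx
    simp only [Pi.add_apply]
    by_cases hx' : x - k * (2 * Real.pi / 3) ≤ Real.pi / 3
    · rw [huniq x k (by linarith) hx', za (x - ((k + 1 : ℤ) : ℝ) * (2 * Real.pi / 3)), add_zero]
      intro h
      have := h.1
      push_cast at this
      linarith
    · rw [huniq x (k + 1) (by push_cast; linarith) (by push_cast; linarith),
        za (x - k * (2 * Real.pi / 3)), zero_add]
      intro h
      exact hx' h.2.le
  have hd : ∀ θ, deriv (fun θ => a (m θ)) θ = b (m θ) := fun θ => (hder θ).deriv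
  have hfix : ∀ θ ∈ Set.Ioc (-(Real.pi / 3)) (Real.pi / 3), m θ = θ := by
    intro θ h
    have := huniq θ 0 (by simpa using h.1) (by simpa using h.2)
    simpa using this
  have aux : ∀ (θ φ : ℝ) (k j : ℤ), k < j → θ = m θ + k * (2 * Real.pi / 3) →
      φ = m φ + j * (2 * Real.pi / 3) → |b (m θ) - b (m φ)| ≤ L * |θ - φ| := by
    intro θ φ k j hkj hθ hφ
    obtain ⟨m1, m2⟩ := hm θ
    obtain ⟨n1, n2⟩ := hm φ
    have h1 := lip (m θ) (Real.pi / 3)
    have h2 := lip (m φ) (-(Real.pi / 3))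
    rw [zb (Real.pi / 3) (fun h => lt_irrefl _ h.2), sub_zero,
      abs_of_nonpos (by linarith : m θ - Real.pi / 3 ≤ 0)] at h1
    rw [zb (-(Real.pi / 3)) (fun h => lt_irrefl _ h.1), sub_zero,
      abs_of_nonneg (by linarith : 0 ≤ m φ - -(Real.pi / 3))] at h2
    have h3 : (k : ℝ) + 1 ≤ j := by exact_mod_cast hkj
    have h4 : -(m θ - Real.pi / 3) + (m φ - -(Real.pi / 3)) ≤ |θ - φ| := by
      have := neg_le_abs (θ - φ)
      nlinarith
    calc |b (m θ) - b (m φ)| ≤ |b (m θ)| + |b (m φ)| := abs_sub _ _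
      _ ≤ L * (-(m θ - Real.pi / 3) + (m φ - -(Real.pi / 3))) := by linarith
      _ ≤ _ := by gcongr
  refine ⟨fun θ => a (m θ), fun θ => (hder θ).differentiableAt, fun θ => ?_, fun θ => ba _,
    fun θ => by rw [hd]; exact bb _, fun θ φ => ?_, fun θ h => by simp only [hfix θ h], ?_⟩
  · simp only [m, toIocMod_add_right]
  · rw [hd, hd]
    obtain ⟨k, hθ⟩ := hk θ
    obtain ⟨j, hφ⟩ := hk φ
    rcases lt_trichotomy k j with h | h | h
    · exact aux θ φ k j h hθ hφ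
    · subst h
      have : θ - φ = m θ - m φ := by linarith
      rw [this]
      exact lip _ _
    · rw [abs_sub_comm (b _), abs_sub_comm θ]
      exact aux φ θ j k h hφ hθ
  · rw [hd, hfix 0 ⟨by linarith, by linarith⟩]

theorem ext_main (ρ : ℝ) (hρ : 0 < ρ) (hρ1 : ρ ≤ 1 / 4) :
    ∃ C : ℝ, 0 < C ∧ ∀ (κ : ℝ) (T₁ r₁ T₂ r₂ : ℂ → ℂ), Branch ρ κ T₁ r₁ → Branch ρ κ T₂ r₂ →
      ∃ R : ℝ → ℝ, Differentiable ℝ R ∧ Function.Periodic R (2 * Real.pi / 3) ∧
        (∀ θ, |R θ| ≤ C * κ) ∧ (∀ θ, |deriv R θ| ≤ C * κ) ∧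
        (∀ θ φ, |deriv R θ - deriv R φ| ≤ C * κ * |θ - φ|) ∧
        R 0 = 0 ∧ R (Real.pi / 3) = 0 ∧ deriv R 0 = 0 ∧
        (∀ x : ℝ, R (thR (T₁ x).re) = (r₁ x).re) ∧
        (∀ x : ℝ, R (-thR (T₂ x).re) = (r₂ x).re) := by
  obtain ⟨C, hC, h⟩ := ext_branch ρ hρ hρ1
  refine ⟨2 * C, by positivity, fun κ T₁ r₁ T₂ r₂ h₁ h₂ => ?_⟩
  obtain ⟨a₁, b₁, p₁, v₁⟩ := h κ T₁ r₁ h₁
  obtain ⟨a₂, b₂, p₂, v₂⟩ := h κ T₂ r₂ h₂
  have hpi := Real.pi_pos
  have o1 : ∀ θ, θ ∉ Set.Ioo (-(Real.pi / 3)) (Real.pi / 3) → θ ∉ Set.Ioo 0 (Real.pi / 3) :=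
    fun θ h h' => h ⟨by linarith [h'.1], h'.2⟩
  have o2 : ∀ θ, θ ∉ Set.Ioo (-(Real.pi / 3)) (Real.pi / 3) → -θ ∉ Set.Ioo 0 (Real.pi / 3) :=
    fun θ h h' => h ⟨by linarith [h'.2], by linarith [h'.1]⟩
  have z0 : (0 : ℝ) ∉ Set.Ioo 0 (Real.pi / 3) := fun h => lt_irrefl _ h.1
  obtain ⟨R, R1, R2, R3, R4, R5, R6, R7⟩ := ext_per (L := 2 * C * κ)
    (a := fun θ => a₁ θ + a₂ (-θ)) (b := fun θ => b₁ θ - b₂ (-θ))
    (fun θ => by
      have h1 := (p₂.der (-θ)).comp θ (hasDerivAt_neg θ)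
      have h2 := (p₁.der θ).add h1
      have e : b₁ θ + b₂ (-θ) * -1 = b₁ θ - b₂ (-θ) := by ring
      rw [e] at h2
      exact h2)
    (fun θ h => by simp only [p₁.za θ (o1 θ h), p₂.za _ (o2 θ h), add_zero])
    (fun θ h => by simp only [p₁.zb θ (o1 θ h), p₂.zb _ (o2 θ h), sub_zero])
    (fun θ => (abs_add_le _ _).trans (by linarith [p₁.ba θ, p₂.ba (-θ)]))
    (fun θ => (abs_sub _ _).trans (by linarith [p₁.bb θ, p₂.bb (-θ)]))
    (fun θ φ => by
      have h1 := p₁.lip θ φ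
      have h2 := p₂.lip (-θ) (-φ)
      rw [show -θ - -φ = -(θ - φ) by ring, abs_neg] at h2
      have h3 := abs_sub (b₁ θ - b₁ φ) (b₂ (-θ) - b₂ (-φ))
      rw [show b₁ θ - b₂ (-θ) - (b₁ φ - b₂ (-φ)) = b₁ θ - b₁ φ - (b₂ (-θ) - b₂ (-φ)) by ring]
      linarith)
  refine ⟨R, R1, R2, R3, R4, R5, ?_, ?_, ?_, fun x => ?_, fun x => ?_⟩
  · rw [R6 0 ⟨by linarith, by linarith⟩]
    simp only [neg_zero, p₁.za 0 z0, p₂.za 0 z0, add_zero]
  · rw [R6 _ ⟨by linarith, le_rfl⟩]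
    have h1 : Real.pi / 3 ∉ Set.Ioo (-(Real.pi / 3)) (Real.pi / 3) := fun h => lt_irrefl _ h.2
    simp only [p₁.za _ (o1 _ h1), p₂.za _ (o2 _ h1), add_zero]
  · rw [R7]
    simp only [neg_zero, p₁.zb 0 z0, p₂.zb 0 z0, sub_zero]
  · have h1 := ext_thR_mem (T₁ x).re
    rw [R6 _ ⟨by linarith [h1.1], h1.2.le⟩]
    rw [v₁, p₂.za _ (fun h => by linarith [h.1, h1.1]), add_zero]
  · have h1 := ext_thR_mem (T₂ x).re
    rw [R6 _ ⟨by linarith [h1.2], by linarith [h1.1]⟩]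
    rw [neg_neg, v₂, p₁.za _ (fun h => by linarith [h.1, h1.1]), zero_add]

end Pool.Agent.MP_be9872_an
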