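import Pool.Agent.MP_be9872_an.Defs

set_option autoImplicit false

namespace Pool.Agent.MP_be9872_an

open Metric Set

theorem per_isOpen (ρ : ℝ) : IsOpen (St ρ) :=
  isOpen_lt (continuous_abs.comp Complex.continuous_im) continuous_const

theorem per_convex (ρ : ℝ) : Convex ℝ (St ρ) := by
  intro x hx y hy a b ha hb hab
  simp only [St, mem_ofPred_eq] at hx hy ⊢
  have h1 : (a • x + b • y).im = a * x.im + b * y.im := by simp
  rw [h1]
  have h2 : |a * x.im + b * y.im| ≤ a * |x.im| + b * |y.im| := by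
    calc |a * x.im + b * y.im| ≤ |a * x.im| + |b * y.im| := abs_add_le _ _
      _ = a * |x.im| + b * |y.im| := by rw [abs_mul, abs_mul, abs_of_nonneg ha, abs_of_nonneg hb]
  rcases eq_or_lt_of_le ha with h | h
  · have hb1 : b = 1 := by linarith
    subst h
    rw [hb1]
    simpa using hy
  · have h3 : a * |x.im| < a * ρ := mul_lt_mul_of_pos_left hx h
    have h4 : b * |y.im| ≤ b * ρ := mul_le_mul_of_nonneg_left hy.le hb
    calc |a * x.im + b * y.im| ≤ a * |x.im| + b * |y.im| := h2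
      _ < a * ρ + b * ρ := by linarith
      _ = ρ := by rw [← add_mul, hab, one_mul]

theorem per_add_real {ρ : ℝ} {τ : ℂ} (h : τ ∈ St ρ) (s : ℝ) : τ + s ∈ St ρ := by
  simpa [St] using h

theorem per_mono {r ρ : ℝ} (h : r ≤ ρ) : St r ⊆ St ρ := fun _ hτ => lt_of_lt_of_le hτ h

theorem per_ball {r d : ℝ} {τ : ℂ} (h : τ ∈ St (r - d)) : ball τ d ⊆ St r := by
  intro z hz
  simp only [St, mem_ofPred_eq] at h ⊢
  have h1 : |(z - τ).im| ≤ ‖z - τ‖ := Complex.abs_im_le_norm _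
  have h2 : ‖z - τ‖ < d := by simpa [dist_eq_norm] using hz
  have h3 : z.im = τ.im + (z - τ).im := by simp
  rw [h3]
  calc |τ.im + (z - τ).im| ≤ |τ.im| + |(z - τ).im| := abs_add_le _ _
    _ < r := by linarith

theorem per_cauchy {r d D : ℝ} (hd : 0 < d) {G : ℂ → ℂ} (hG : DifferentiableOn ℂ G (St r))
    (hb : ∀ τ ∈ St r, ‖G τ‖ ≤ D) {τ : ℂ} (h : τ ∈ St (r - d)) : ‖deriv G τ‖ ≤ 2 * D / d := by
  refine Complex.norm_deriv_le_div_of_mapsTo_ball (hG.mono (per_ball h)) ?_ hd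
  intro z hz
  have h1 := hb z (per_ball h hz)
  have h2 := hb τ (per_ball h (mem_ball_self hd))
  rw [mem_closedBall, dist_eq_norm]
  calc ‖G z - G τ‖ ≤ ‖G z‖ + ‖G τ‖ := norm_sub_le _ _
    _ ≤ 2 * D := by linarith

theorem per_cont {ρ : ℝ} {G : ℂ → ℂ} (hG : ContinuousOn G (St ρ)) {τ : ℂ} (h : τ ∈ St ρ) (l : ℝ) :
    Continuous fun s : ℝ => G (τ + ((s * l : ℝ) : ℂ)) :=
  hG.comp_continuous (by fun_prop) fun s => per_add_real h _

/-- differentiation under the integral sign -/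
theorem per_hasDerivAt {ρ e : ℝ} (l : ℝ) {F : ℂ → ℂ} (hF : DifferentiableOn ℂ F (St ρ))
    (hb : ∀ τ ∈ St ρ, ‖F τ‖ ≤ e) (φ : ℝ → ℂ) (hφ : Continuous φ) {τ : ℂ} (h : τ ∈ St ρ) :
    HasDerivAt (fun t : ℂ => ∫ s in (0 : ℝ)..1, φ s * F (t + ((s * l : ℝ) : ℂ)))
      (∫ s in (0 : ℝ)..1, φ s * deriv F (τ + ((s * l : ℝ) : ℂ))) τ := by
  have hτ : |τ.im| < ρ := h
  set d : ℝ := (ρ - |τ.im|) / 2 with hd
  have hd0 : 0 < d := by rw [hd]; linarith
  have hτ2 : τ ∈ St (ρ - d - d / 2) := by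
    show |τ.im| < ρ - d - d / 2
    rw [hd]; linarith
  have hball : ball τ (d / 2) ⊆ St (ρ - d) := per_ball hτ2
  have hsub : St (ρ - d) ⊆ St ρ := per_mono (by linarith)
  have hF' : DifferentiableOn ℂ (deriv F) (St ρ) := hF.deriv (per_isOpen ρ)
  refine (intervalIntegral.hasDerivAt_integral_of_dominated_loc_of_deriv_le
    (F := fun (t : ℂ) (s : ℝ) => φ s * F (t + ((s * l : ℝ) : ℂ)))
    (F' := fun (t : ℂ) (s : ℝ) => φ s * deriv F (t + ((s * l : ℝ) : ℂ)))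
    (bound := fun s => ‖φ s‖ * (2 * e / d)) (s := ball τ (d / 2))
    (ball_mem_nhds τ (by linarith)) ?_ ?_ ?_ ?_ ?_ ?_).2
  · filter_upwards [(per_isOpen ρ).mem_nhds h] with t ht
    exact (hφ.mul (per_cont hF.continuousOn ht l)).aestronglyMeasurable
  · exact (hφ.mul (per_cont hF.continuousOn h l)).intervalIntegrable _ _
  · exact (hφ.mul (per_cont hF'.continuousOn h l)).aestronglyMeasurable
  · refine Filter.Eventually.of_forall fun s _ t ht => ?_
    rw [norm_mul]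
    exact mul_le_mul_of_nonneg_left (per_cauchy hd0 hF hb (per_add_real (hball ht) _))
      (norm_nonneg _)
  · exact (hφ.norm.mul continuous_const).intervalIntegrable _ _
  · refine Filter.Eventually.of_forall fun s _ t ht => ?_
    have h1 : t + ((s * l : ℝ) : ℂ) ∈ St ρ := per_add_real (hsub (hball ht)) _
    have h2 := (hF.differentiableAt ((per_isOpen ρ).mem_nhds h1)).hasDerivAt
    exact (h2.comp_add_const t _).const_mul (φ s)

theorem per_line {ρ : ℝ} (l : ℝ) {F : ℂ → ℂ} (hF : DifferentiableOn ℂ F (St ρ)) {τ : ℂ}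
    (h : τ ∈ St ρ) (s : ℝ) :
    HasDerivAt (fun s : ℝ => F (τ + ((s * l : ℝ) : ℂ)))
      (deriv F (τ + ((s * l : ℝ) : ℂ)) * l) s := by
  have h1 : τ + ((s * l : ℝ) : ℂ) ∈ St ρ := per_add_real h _
  have h2 := (hF.differentiableAt ((per_isOpen ρ).mem_nhds h1)).hasDerivAt
  have h3 : HasDerivAt (fun z : ℂ => τ + z * (l : ℂ)) (l : ℂ) (s : ℂ) := by
    simpa using ((hasDerivAt_id (s : ℂ)).mul_const (l : ℂ)).const_add τ
  have h4 : τ + ((s * l : ℝ) : ℂ) = τ + (s : ℂ) * (l : ℂ) := by push_cast; ring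
  rw [h4] at h2
  have h5 := (h2.comp (s : ℂ) h3).comp_ofReal
  rw [h4]
  refine h5.congr_of_eventuallyEq (Filter.Eventually.of_forall fun y => ?_)
  simp [Function.comp]

/-- periodic primitive, up to the mean value -/
theorem exists_prim (l ρ e : ℝ) (hl : 0 < l) (hρ : 0 < ρ) (F : ℂ → ℂ)
    (hF : DifferentiableOn ℂ F (St ρ)) (hper : ∀ τ ∈ St ρ, F (τ + l) = F τ)
    (hre : IsRe F) (hb : ∀ τ ∈ St ρ, ‖F τ‖ ≤ e) :
    ∃ (Y : ℂ → ℂ) (m : ℂ), DifferentiableOn ℂ Y (St ρ) ∧ (∀ τ ∈ St ρ, Y (τ + l) = Y τ) ∧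
      IsRe Y ∧ (∀ τ ∈ St ρ, ‖Y τ‖ ≤ l * e) ∧ ‖m‖ ≤ e ∧
      ∀ τ ∈ St ρ, deriv Y τ = F τ - m := by
  have h0 : (0 : ℂ) ∈ St ρ := by simpa [St] using hρ
  have he : 0 ≤ e := (norm_nonneg _).trans (hb 0 h0)
  have hF' : DifferentiableOn ℂ (deriv F) (St ρ) := hF.deriv (per_isOpen ρ)
  set M : ℂ → ℂ := fun t => ∫ s in (0 : ℝ)..1, (1 : ℂ) * F (t + ((s * l : ℝ) : ℂ)) with hM
  set Y : ℂ → ℂ := fun t => ∫ s in (0 : ℝ)..1, ((s * l : ℝ) : ℂ) * F (t + ((s * l : ℝ) : ℂ))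
    with hY
  have hlc : (l : ℂ) ≠ 0 := by exact_mod_cast hl.ne'
  have hMd : ∀ τ ∈ St ρ, HasDerivAt M 0 τ := by
    intro τ hτ
    have h1 := per_hasDerivAt l hF hb (fun _ => (1 : ℂ)) continuous_const hτ
    have h2 : ∫ s in (0 : ℝ)..1, deriv F (τ + ((s * l : ℝ) : ℂ)) * l
        = F (τ + ((1 * l : ℝ) : ℂ)) - F (τ + ((0 * l : ℝ) : ℂ)) :=
      intervalIntegral.integral_eq_sub_of_hasDerivAt (f := fun s : ℝ => F (τ + ((s * l : ℝ) : ℂ)))
        (fun s _ => per_line l hF hτ s)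
        (((per_cont hF'.continuousOn hτ l).mul continuous_const).intervalIntegrable _ _)
    rw [intervalIntegral.integral_mul_const, one_mul, zero_mul, hper τ hτ] at h2
    have h3 : ∫ s in (0 : ℝ)..1, deriv F (τ + ((s * l : ℝ) : ℂ)) = 0 := by
      have h4 : (∫ s in (0 : ℝ)..1, deriv F (τ + ((s * l : ℝ) : ℂ))) * l = 0 := by
        rw [h2]; simp
      exact (mul_eq_zero.1 h4).resolve_right hlc
    have h5 : ∫ s in (0 : ℝ)..1, (1 : ℂ) * deriv F (τ + ((s * l : ℝ) : ℂ)) = 0 := by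
      simpa using h3
    rw [h5] at h1
    exact h1
  have hMc : ∀ τ ∈ St ρ, M τ = M 0 := by
    intro τ hτ
    have := (per_convex ρ).norm_image_sub_le_of_norm_hasDerivWithin_le (f := M) (f' := fun _ => 0)
      (C := 0) (fun x hx => (hMd x hx).hasDerivWithinAt) (fun _ _ => by simp) h0 hτ
    simpa [sub_eq_zero] using this
  have hcl : Continuous fun s : ℝ => ((s * l : ℝ) : ℂ) := by fun_prop
  have hYd : ∀ τ ∈ St ρ, HasDerivAt Y (F τ - M 0) τ := by
    intro τ hτ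
    have h1 := per_hasDerivAt l hF hb (fun s => ((s * l : ℝ) : ℂ)) hcl hτ
    have hc1 := per_cont hF.continuousOn hτ l
    have hc2 := per_cont hF'.continuousOn hτ l
    have h2 : ∫ s in (0 : ℝ)..1, ((1 : ℂ) * F (τ + ((s * l : ℝ) : ℂ)) +
          ((s * l : ℝ) : ℂ) * deriv F (τ + ((s * l : ℝ) : ℂ)))
        = ((1 : ℝ) : ℂ) * F (τ + ((1 * l : ℝ) : ℂ)) - ((0 : ℝ) : ℂ) * F (τ + ((0 * l : ℝ) : ℂ)) := by
      refine intervalIntegral.integral_eq_sub_of_hasDerivAt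
        (f := fun s : ℝ => (s : ℂ) * F (τ + ((s * l : ℝ) : ℂ))) (fun s _ => ?_)
        (((continuous_const.mul hc1).add (hcl.mul hc2)).intervalIntegrable _ _)
      have h3 : HasDerivAt (fun s : ℝ => (s : ℂ)) 1 s := Complex.ofRealCLM.hasDerivAt
      have h4 := h3.mul (per_line l hF hτ s)
      have h5 : (1 : ℂ) * F (τ + ((s * l : ℝ) : ℂ)) +
          ((s * l : ℝ) : ℂ) * deriv F (τ + ((s * l : ℝ) : ℂ)) =
          1 * F (τ + ((s * l : ℝ) : ℂ)) + (s : ℂ) * (deriv F (τ + ((s * l : ℝ) : ℂ)) * l) := by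
        push_cast; ring
      rw [h5]
      exact h4
    have hc3 : Continuous fun s : ℝ => (1 : ℂ) * F (τ + ((s * l : ℝ) : ℂ)) :=
      continuous_const.mul hc1
    have hc4 : Continuous fun s : ℝ => ((s * l : ℝ) : ℂ) * deriv F (τ + ((s * l : ℝ) : ℂ)) :=
      hcl.mul hc2
    rw [intervalIntegral.integral_add (hc3.intervalIntegrable _ _)
      (hc4.intervalIntegrable _ _), one_mul l, hper τ hτ] at h2
    have h6 : ∫ s in (0 : ℝ)..1, ((s * l : ℝ) : ℂ) * deriv F (τ + ((s * l : ℝ) : ℂ))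
        = F τ - M 0 := by
      rw [← hMc τ hτ]
      have h7 : M τ = ∫ s in (0 : ℝ)..1, (1 : ℂ) * F (τ + ((s * l : ℝ) : ℂ)) := rfl
      rw [h7, eq_sub_iff_add_eq, add_comm, h2]
      simp
    rw [h6] at h1
    exact h1
  refine ⟨Y, M 0, fun τ hτ => (hYd τ hτ).differentiableAt.differentiableWithinAt, ?_, ?_, ?_, ?_,
    fun τ hτ => (hYd τ hτ).deriv⟩
  · intro τ hτ
    refine intervalIntegral.integral_congr fun s _ => ?_
    have h1 : τ + l + ((s * l : ℝ) : ℂ) = τ + ((s * l : ℝ) : ℂ) + l := by ring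
    simp only [h1, hper _ (per_add_real hτ _)]
  · intro x
    have h1 : Y x = ∫ s in (0 : ℝ)..1, (((s * l) * (F ((x + s * l : ℝ) : ℂ)).re : ℝ) : ℂ) := by
      refine intervalIntegral.integral_congr fun s _ => ?_
      have h2 : (x : ℂ) + ((s * l : ℝ) : ℂ) = ((x + s * l : ℝ) : ℂ) := by push_cast; ring
      have h3 : F ((x + s * l : ℝ) : ℂ) = ((F ((x + s * l : ℝ) : ℂ)).re : ℂ) :=
        Complex.ext (by simp) (by rw [hre (x + s * l)]; simp)
      simp only [h2]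
      rw [Complex.ofReal_mul (s * l), ← h3]
    rw [h1, intervalIntegral.integral_ofReal, Complex.ofReal_im]
  · intro τ hτ
    have h1 : ‖Y τ‖ ≤ (l * e) * |(1 : ℝ) - 0| := by
      refine intervalIntegral.norm_integral_le_of_norm_le_const fun s hs => ?_
      rw [uIoc_of_le zero_le_one] at hs
      rw [norm_mul, Complex.norm_real, Real.norm_eq_abs, abs_of_nonneg (mul_pos hs.1 hl).le]
      refine mul_le_mul ?_ (hb _ (per_add_real hτ _)) (norm_nonneg _) hl.le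
      calc s * l ≤ 1 * l := mul_le_mul_of_nonneg_right hs.2 hl.le
        _ = l := one_mul l
    simpa using h1
  · have h1 : ‖M 0‖ ≤ e * |(1 : ℝ) - 0| := by
      refine intervalIntegral.norm_integral_le_of_norm_le_const fun s _ => ?_
      rw [one_mul]
      exact hb _ (per_add_real h0 _)
    simpa using h1

/-- one step of the improvement of the bound on the derivative -/
theorem per_step {r d D l : ℝ} (hd : 0 < d) (hl : 0 < l) {F : ℂ → ℂ}
    (hF : DifferentiableOn ℂ F (St r)) (hper : ∀ τ ∈ St r, F (τ + l) = F τ)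
    (hb : ∀ τ ∈ St r, ‖deriv F τ‖ ≤ D) : ∀ τ ∈ St (r - d), ‖deriv F τ‖ ≤ 2 * D / d * l := by
  intro τ hτ
  have hsub : St (r - d) ⊆ St r := per_mono (by linarith)
  have hF' : DifferentiableOn ℂ (deriv F) (St r) := hF.deriv (per_isOpen r)
  have hD : 0 ≤ 2 * D / d := (norm_nonneg _).trans (per_cauchy hd hF' hb hτ)
  have hlip : ∀ z ∈ St (r - d), ‖deriv F z - deriv F τ‖ ≤ 2 * D / d * ‖z - τ‖ := fun z hz =>
    (per_convex (r - d)).norm_image_sub_le_of_norm_deriv_le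
      (fun x hx => hF'.differentiableAt ((per_isOpen r).mem_nhds (hsub hx)))
      (fun x hx => per_cauchy hd hF' hb hx) hτ hz
  have hcv : Convex ℝ (St (r - d) ∩ closedBall τ l) := (per_convex _).inter (convex_closedBall _ _)
  have h1 := hcv.norm_image_sub_le_of_norm_hasDerivWithin_le
    (f := fun z => F z - z * deriv F τ) (f' := fun z => deriv F z - deriv F τ)
    (C := 2 * D / d * l) (x := τ) (y := τ + l) ?_ ?_ ⟨hτ, mem_closedBall_self hl.le⟩
    ⟨per_add_real hτ l, by simp [abs_of_pos hl]⟩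
  · have h2 : F (τ + l) - (τ + l) * deriv F τ - (F τ - τ * deriv F τ) = -(l * deriv F τ) := by
      rw [hper τ (hsub hτ)]; ring
    simp only [h2, norm_neg, norm_mul, add_sub_cancel_left, Complex.norm_real, Real.norm_eq_abs,
      abs_of_pos hl] at h1
    have h3 : l * ‖deriv F τ‖ ≤ l * (2 * D / d * l) := by linarith
    exact le_of_mul_le_mul_left h3 hl
  · intro x hx
    have h2 := (hF.differentiableAt ((per_isOpen r).mem_nhds (hsub hx.1))).hasDerivAt
    have h3 : HasDerivAt (fun z : ℂ => z * deriv F τ) (deriv F τ) x := by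
      simpa using (hasDerivAt_id x).mul_const (deriv F τ)
    exact (h2.sub h3).hasDerivWithinAt
  · intro x hx
    refine (hlip x hx.1).trans (mul_le_mul_of_nonneg_left ?_ hD)
    simpa [dist_eq_norm] using hx.2

theorem per_int {r l : ℝ} {F : ℂ → ℂ} (hper : ∀ τ ∈ St r, F (τ + l) = F τ) (n : ℤ) :
    ∀ τ ∈ St r, F (τ + ((n * l : ℝ) : ℂ)) = F τ := by
  induction n using Int.induction_on with
  | zero => intro τ _; simp
  | succ k ih =>
    intro τ hτ
    have h1 : τ + (((((k : ℤ) + 1 : ℤ) : ℝ) * l : ℝ) : ℂ)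
        = τ + (((((k : ℤ) : ℤ) : ℝ) * l : ℝ) : ℂ) + l := by push_cast; ring
    rw [h1, hper _ (per_add_real hτ _), ih τ hτ]
  | pred k ih =>
    intro τ hτ
    have h1 : τ + ((((-(k : ℤ) - 1 : ℤ) : ℝ) * l : ℝ) : ℂ) + l
        = τ + ((((-(k : ℤ) : ℤ) : ℝ) * l : ℝ) : ℂ) := by push_cast; ring
    rw [← hper _ (per_add_real hτ _), h1, ih τ hτ]

/-- a bounded function with a short period is almost constant on a narrower strip -/
theorem osc_small (N : ℕ) :
    ∃ C : ℝ, 0 < C ∧ ∀ (l B : ℝ) (F : ℂ → ℂ), 0 < l → l ≤ 1 →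
      DifferentiableOn ℂ F (St (1 / 4)) → (∀ τ ∈ St (1 / 4), F (τ + l) = F τ) →
      (∀ τ ∈ St (1 / 4), ‖F τ‖ ≤ B) →
      ∀ τ ∈ St (1 / 8), ‖F τ - F 0‖ ≤ C * l ^ N * B := by
  set d : ℝ := 1 / (16 * ((N : ℝ) + 1)) with hd
  have hd0 : 0 < d := by rw [hd]; positivity
  refine ⟨64 * (2 / d) ^ N, by positivity, fun l B F hl hl1 hF hper hb τ hτ => ?_⟩
  have h0 : (0 : ℂ) ∈ St (1 / 8) := by simp [St]
  have hsub : St (1 / 8) ⊆ St (1 / 4) := per_mono (by norm_num)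
  have hB : 0 ≤ B := (norm_nonneg _).trans (hb 0 (hsub h0))
  have key : ∀ k : ℕ, ∀ z ∈ St (1 / 4 - 1 / 16 - k * d),
      ‖deriv F z‖ ≤ 32 * B * (2 / d * l) ^ k := by
    intro k
    induction k with
    | zero =>
      intro z hz
      have h1 : z ∈ St (1 / 4 - 1 / 16) := by simpa using hz
      have h2 := per_cauchy (by norm_num : (0 : ℝ) < 1 / 16) hF hb h1
      calc ‖deriv F z‖ ≤ 2 * B / (1 / 16) := h2
        _ = 32 * B * (2 / d * l) ^ 0 := by ring
    | succ k ih =>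
      intro z hz
      have hk : St (1 / 4 - 1 / 16 - k * d) ⊆ St (1 / 4) := per_mono (by
        have : 0 ≤ (k : ℝ) * d := by positivity
        linarith)
      have h1 : z ∈ St (1 / 4 - 1 / 16 - k * d - d) := by
        have h2 : (1 / 4 - 1 / 16 - k * d - d : ℝ) = 1 / 4 - 1 / 16 - ((k + 1 : ℕ) : ℝ) * d := by
          push_cast; ring
        rw [h2]; exact hz
      have h3 := per_step hd0 hl (hF.mono hk) (fun w hw => hper w (hk hw)) ih z h1
      calc ‖deriv F z‖ ≤ 2 * (32 * B * (2 / d * l) ^ k) / d * l := h3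
        _ = 32 * B * (2 / d * l) ^ (k + 1) := by ring
  have hN : St (1 / 8) ⊆ St (1 / 4 - 1 / 16 - N * d) := per_mono (by
    have h1 : (N : ℝ) * d ≤ 1 / 16 := by
      rw [hd, mul_one_div, div_le_div_iff₀ (by positivity) (by norm_num)]
      linarith
    linarith)
  set n : ℤ := -⌊τ.re / l⌋ with hn
  set σ : ℂ := τ + ((n * l : ℝ) : ℂ) with hσ
  have hσ1 : σ ∈ St (1 / 8) := per_add_real hτ _
  have hσ2 : F σ = F τ := per_int hper n τ (hsub hτ)
  have hσ3 : ‖σ‖ ≤ 2 := by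
    have h1 : σ.re = τ.re - (⌊τ.re / l⌋ : ℝ) * l := by
      rw [hσ, hn]; simp only [Complex.add_re, Complex.ofReal_re]; push_cast; ring
    have h2 : (⌊τ.re / l⌋ : ℝ) * l ≤ τ.re := by
      rw [← le_div_iff₀ hl]; exact Int.floor_le _
    have h3 : τ.re < ((⌊τ.re / l⌋ : ℝ) + 1) * l := by
      rw [← div_lt_iff₀ hl]; exact Int.lt_floor_add_one _
    have h4 : |σ.re| ≤ 1 := by
      rw [h1, abs_le]; constructor <;> nlinarith
    have h5 : |σ.im| < 1 / 8 := hσ1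
    have h6 := Complex.norm_le_abs_re_add_abs_im σ
    linarith
  have h7 := (per_convex (1 / 8)).norm_image_sub_le_of_norm_deriv_le (f := F)
    (fun x hx => hF.differentiableAt ((per_isOpen _).mem_nhds (hsub hx)))
    (fun x hx => key N x (hN hx)) h0 hσ1
  rw [hσ2, sub_zero] at h7
  calc ‖F τ - F 0‖ ≤ 32 * B * (2 / d * l) ^ N * ‖σ‖ := h7
    _ ≤ 32 * B * (2 / d * l) ^ N * 2 := mul_le_mul_of_nonneg_left hσ3 (by positivity)
    _ = 64 * (2 / d) ^ N * l ^ N * B := by rw [mul_pow]; ring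

end Pool.Agent.MP_be9872_an
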